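import Pool.Agent.Helper84.CP.Main

namespace Pool.Agent.Results.MP_5155e4_gt.LargeFirstCountable

open Pool.Agent.Helper84.CP

universe u

/-- For every cardinal `κ` (in particular for `κ` bigger than the continuum) there is a Tychonoff
first countable space `X`, all of whose points are `G_δ`, such that `C_p(X)` is a Lindelof Sigma
space and `κ ≤ |X|`. This answers Q1 and Q2 of MP_5155e4_gt in the negative. -/
theorem result (κ : Cardinal.{u}) :
    ∃ (X : Type u) (_ : TopologicalSpace X),
      T35Space X ∧ FirstCountableTopology X ∧ (∀ x : X, IsGδ ({x} : Set X)) ∧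
        IsLindelofSigma (Cp X) ∧ κ ≤ Cardinal.mk X :=
  main κ

end Pool.Agent.Results.MP_5155e4_gt.LargeFirstCountable
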